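import Pool.Agent.W845.DH.Stm

/-!
# DH-ABS: the absorbing cycle
-/

set_option autoImplicit false
set_option linter.unusedSectionVars false
open scoped Classical

namespace Pool.Agent.W318.DH

open Pool.Agent.W845.DH

variable {V : Type} [Fintype V]

/-- `L` is a path of `D` containing the arcs of `E` and avoiding the other arcs of `A`. -/
structure Good (D : V → V → Prop) (A E : Finset (V × V)) (L : List V) : Prop where
  nodup : L.Nodup
  chain : L.IsChain D
  inf : ∀ e ∈ E, [e.1, e.2] <:+: L
  out : ∀ f ∈ A, f ∉ E → f.1 ∉ L ∧ f.2 ∉ L
  len : L.length + 2 ≤ 4 * E.card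

theorem vs_card (A : Finset (V × V)) : (vs A).card ≤ 2 * A.card := by
  unfold vs
  have h1 := Finset.card_union_le (A.image Prod.fst) (A.image Prod.snd)
  have h2 : (A.image Prod.fst).card ≤ A.card := Finset.card_image_le
  have h3 : (A.image Prod.snd).card ≤ A.card := Finset.card_image_le
  omega

theorem ne_of_not_vs {A : Finset (V × V)} {x : V} (h : x ∉ vs A) (g : V × V) (hg : g ∈ A) :
    x ≠ g.1 ∧ x ≠ g.2 := by
  unfold vs at h
  rw [Finset.mem_union, not_or] at h
  constructor
  · rintro rfl
    exact h.1 (Finset.mem_image_of_mem _ hg)
  · rintro rfl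
    exact h.2 (Finset.mem_image_of_mem _ hg)

theorem exists_good (D : V → V → Prop) (m : ℕ) (A : Finset (V × V)) (hC : Con m D)
    (hA : VDs A) (hD : ∀ e ∈ A, D e.1 e.2) (hm : 8 * A.card + 2 ≤ m) (E : Finset (V × V)) :
    E ⊆ A → E.Nonempty → ∃ L, Good D A E L := by
  induction E using Finset.induction_on with
  | empty => intro _ h; exact absurd h Finset.not_nonempty_empty
  | insert f E hf ih =>
    intro hsub _
    have hfA : f ∈ A := hsub (Finset.mem_insert_self f E)
    have hEA : E ⊆ A := (Finset.subset_insert f E).trans hsub
    have hf12 : f.1 ≠ f.2 := hA.1 f hfA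
    by_cases hE : E.Nonempty
    · obtain ⟨L, hL⟩ := ih hEA hE
      have hne : L ≠ [] := by
        rintro rfl
        obtain ⟨e, he⟩ := hE
        have := (hL.inf e he).length_le
        simp at this
      have hcE : E.card ≤ A.card := Finset.card_le_card hEA
      have hlen := hL.len
      have hZ : (L.toFinset ∪ vs A).card ≤ m := by
        have h1 := Finset.card_union_le L.toFinset (vs A)
        have h2 := List.toFinset_card_le L
        have h3 := vs_card A
        omega
      obtain ⟨x, y, hx, hy, hxy, d1, d2, d3⟩ := hC (L.getLast hne) f.1 _ hZ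
      rw [Finset.mem_union, not_or, List.mem_toFinset] at hx hy
      obtain ⟨hxL, hxA⟩ := hx
      obtain ⟨hyL, hyA⟩ := hy
      obtain ⟨f1L, f2L⟩ := hL.out f hfA hf
      obtain ⟨xf1, xf2⟩ := ne_of_not_vs hxA f hfA
      obtain ⟨yf1, yf2⟩ := ne_of_not_vs hyA f hfA
      refine ⟨L ++ [x, y, f.1, f.2], ?_, ?_, ?_, ?_, ?_⟩
      · rw [List.nodup_append]
        refine ⟨hL.nodup, ?_, ?_⟩
        · simp [hxy, xf1, xf2, yf1, yf2, hf12]
        · intro u hu v hv huv
          subst huv
          simp only [List.mem_cons, List.not_mem_nil, or_false] at hv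
          rcases hv with rfl | rfl | rfl | rfl
          · exact hxL hu
          · exact hyL hu
          · exact f1L hu
          · exact f2L hu
      · rw [List.isChain_append]
        refine ⟨hL.chain, ?_, ?_⟩
        · simp [d2, d3, hD f hfA]
        · intro u hu v hv
          rw [List.getLast?_eq_some_getLast hne, Option.mem_some_iff] at hu
          simp only [List.head?_cons, Option.mem_some_iff] at hv
          rw [← hu, ← hv]
          exact d1
      · intro e he
        rw [Finset.mem_insert] at he
        rcases he with rfl | he
        · exact ⟨L ++ [x, y], [], by simp⟩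
        · exact (hL.inf e he).trans (List.prefix_append _ _).isInfix
      · intro g hg hgE
        rw [Finset.mem_insert, not_or] at hgE
        obtain ⟨g1, g2⟩ := hL.out g hg hgE.2
        obtain ⟨k1, k2, k3, k4⟩ := hA.2 g hg f hfA hgE.1
        obtain ⟨xg1, xg2⟩ := ne_of_not_vs hxA g hg
        obtain ⟨yg1, yg2⟩ := ne_of_not_vs hyA g hg
        constructor
        · rw [List.mem_append, not_or]
          refine ⟨g1, ?_⟩
          simp only [List.mem_cons, List.not_mem_nil, or_false, not_or]
          exact ⟨xg1.symm, yg1.symm, k1, k2⟩
        · rw [List.mem_append, not_or]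
          refine ⟨g2, ?_⟩
          simp only [List.mem_cons, List.not_mem_nil, or_false, not_or]
          exact ⟨xg2.symm, yg2.symm, k3, k4⟩
      · rw [List.length_append, Finset.card_insert_of_notMem hf]
        simp only [List.length_cons, List.length_nil]
        omega
    · rw [Finset.not_nonempty_iff_eq_empty] at hE
      subst hE
      refine ⟨[f.1, f.2], ?_, ?_, ?_, ?_, ?_⟩
      · simp [hf12]
      · simp [hD f hfA]
      · intro e he
        rw [Finset.mem_insert] at he
        rcases he with rfl | he
        · exact List.infix_rfl
        · exact absurd he (Finset.notMem_empty _)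
      · intro g hg hgE
        rw [Finset.mem_insert, not_or] at hgE
        obtain ⟨k1, k2, k3, k4⟩ := hA.2 g hg f hfA hgE.1
        constructor
        · simp only [List.mem_cons, List.not_mem_nil, or_false, not_or]
          exact ⟨k1, k2⟩
        · simp only [List.mem_cons, List.not_mem_nil, or_false, not_or]
          exact ⟨k3, k4⟩
      · simp

/-- (ABS) -/
theorem abs_main : S_ABS := by
  intro V _ D m A hC hA hD hm
  by_cases hA0 : A.Nonempty
  swap
  · rw [Finset.not_nonempty_iff_eq_empty] at hA0
    subst hA0
    refine ⟨1, fun v => Or.inl rfl, fun x y hx => absurd rfl hx, fun e he => absurd he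
      (Finset.notMem_empty _), ?_⟩
    have : (Finset.univ.filter (fun v : V => (1 : Equiv.Perm V) v ≠ v)) = ∅ := by
      apply Finset.filter_false_of_mem
      intro v _ h
      exact h rfl
    rw [this]
    simp
  obtain ⟨L, hL⟩ := exists_good D m A hC hA hD hm A (Finset.Subset.refl _) hA0
  have hlen := hL.len
  have hne : L ≠ [] := by
    rintro rfl
    obtain ⟨e, he⟩ := hA0
    have := (hL.inf e he).length_le
    simp at this
  have hlen2 : 2 ≤ L.length := by
    obtain ⟨e, he⟩ := hA0
    have := (hL.inf e he).length_le
    simpa using this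
  have hZ : L.toFinset.card ≤ m := by
    have h2 := List.toFinset_card_le L
    omega
  obtain ⟨x, y, hx, hy, hxy, d1, d2, d3⟩ := hC (L.getLast hne) (L.head hne) _ hZ
  rw [List.mem_toFinset] at hx hy
  set M := L ++ [x, y] with hM
  have hMn : M.Nodup := by
    rw [hM, List.nodup_append]
    refine ⟨hL.nodup, by simp [hxy], ?_⟩
    intro u hu v hv huv
    subst huv
    simp only [List.mem_cons, List.not_mem_nil, or_false] at hv
    rcases hv with rfl | rfl
    · exact hx hu
    · exact hy hu
  have hMc : M.IsChain D := by
    rw [hM, List.isChain_append]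
    refine ⟨hL.chain, by simp [d2], ?_⟩
    intro u hu v hv
    rw [List.getLast?_eq_some_getLast hne, Option.mem_some_iff] at hu
    simp only [List.head?_cons, Option.mem_some_iff] at hv
    rw [← hu, ← hv]
    exact d1
  have hMl : M.length = L.length + 2 := by simp [hM]
  refine ⟨M.formPerm, ?_, ?_, ?_, ?_⟩
  · intro v
    by_cases hv : v ∈ M
    · right
      obtain ⟨i, hi, rfl⟩ := List.getElem_of_mem hv
      by_cases hi1 : i + 1 < M.length
      · rw [List.formPerm_apply_lt_getElem M hMn i hi1]
        exact List.isChain_iff_getElem.1 hMc i hi1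
      · have hi2 : i + 1 = M.length := by omega
        rw [List.formPerm_apply_getElem M hMn i hi]
        have e1 : M[i] = y := by
          have h3 : i = L.length + 1 := by omega
          subst h3
          simp [hM]
        have e2 : M[(i + 1) % M.length]'(Nat.mod_lt _ (i.zero_le.trans_lt hi)) = L.head hne := by
          have h3 : (i + 1) % M.length = 0 := by rw [hi2, Nat.mod_self]
          simp only [h3]
          rw [List.head_eq_getElem]
          simp only [hM]
          rw [List.getElem_append_left]
        rw [e1, e2]
        exact d3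
    · left
      exact List.formPerm_apply_of_notMem hv
  · intro u v hu hv
    exact (List.isCycle_formPerm hMn (by omega)).sameCycle hu hv
  · intro e he
    obtain ⟨s, t, hst⟩ := hL.inf e he
    have hM2 : M = s ++ ([e.1, e.2] ++ (t ++ [x, y])) := by
      rw [hM, ← hst]
      simp
    have h1 : s.length + 1 < M.length := by
      rw [hM2]
      simp
    have h2 := List.formPerm_apply_lt_getElem M hMn s.length h1
    have e1 : M[s.length]'(by omega) = e.1 := by
      simp only [hM2]
      rw [List.getElem_append_right (le_refl _)]
      simp
    have e2 : M[s.length + 1]'h1 = e.2 := by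
      simp only [hM2]
      rw [List.getElem_append_right (by omega)]
      simp
    rw [e1, e2] at h2
    exact h2
  · have h1 : (Finset.univ.filter (fun v => M.formPerm v ≠ v)) ⊆ M.toFinset := by
      intro v hv
      rw [Finset.mem_filter] at hv
      rw [List.mem_toFinset]
      by_contra hcon
      exact hv.2 (List.formPerm_apply_of_notMem hcon)
    have h2 := Finset.card_le_card h1
    have h3 := List.toFinset_card_le M
    omega

theorem abs_thm : S_SWM → S_ABS := fun _ => abs_main

end Pool.Agent.W318.DH
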